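import Pool.Agent.helper32.NN.Spec

set_option autoImplicit false

open Submodule

noncomputable section

namespace Pool.Agent.NN

universe u v

/-- the sum of the components with degree in `P` -/
def REA_part {K : Type u} {U : Type v} [Field K] [Ring U] [Algebra K U]
    (𝒜 : ℝ → Submodule K U) (P : Set ℝ) : Submodule K U := ⨆ r ∈ P, 𝒜 r

theorem REA_mul {K : Type u} {U : Type v} [Field K] [Ring U] [Algebra K U] {A : Submodule K U}
    {𝒜 : ℝ → Submodule K U} (hG : Gr K U A ℝ (fun r s => r + s) 𝒜) (P : Set ℝ)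
    (hP : ∀ r ∈ P, ∀ s ∈ P, r + s ∈ P) : REA_part 𝒜 P * REA_part 𝒜 P ≤ REA_part 𝒜 P := by
  unfold REA_part
  simp only [Submodule.iSup_mul, Submodule.mul_iSup]
  refine iSup_le fun r => iSup_le fun hr => iSup_le fun s => iSup_le fun hs => ?_
  refine le_trans ?_ (le_iSup₂_of_le (f := fun r (_ : r ∈ P) => 𝒜 r) (r + s) ?_ le_rfl)
  · first
      | exact hG.mul r s
      | exact hG.mul s r
      | (rw [add_comm]; exact hG.mul s r)
  · first
      | exact hP r hr s hs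
      | exact hP s hs r hr

theorem REA_le {K : Type u} {U : Type v} [Field K] [Ring U] [Algebra K U] {A : Submodule K U}
    {𝒜 : ℝ → Submodule K U} (hG : Gr K U A ℝ (fun r s => r + s) 𝒜) (P : Set ℝ) :
    REA_part 𝒜 P ≤ A :=
  iSup₂_le fun r _ => (le_iSup 𝒜 r).trans hG.sup.le

theorem REA_bot {K : Type u} {U : Type v} [Field K] [Ring U] [Algebra K U] {A : Submodule K U}
    {𝒜 : ℝ → Submodule K U} (hG : Gr K U A ℝ (fun r s => r + s) 𝒜) (P : Set ℝ)
    (hA : REA_part 𝒜 P = A) (r : ℝ) (hr : 𝒜 r ≠ ⊥) : r ∈ P := by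
  by_contra hrP
  apply hr
  refine (hG.ind r).eq_bot_of_le ?_
  calc 𝒜 r ≤ A := (le_iSup 𝒜 r).trans hG.sup.le
    _ = REA_part 𝒜 P := hA.symm
    _ ≤ ⨆ j, ⨆ (_ : j ≠ r), 𝒜 j := by
        refine iSup₂_le fun j hj => le_iSup₂_of_le j ?_ le_rfl
        rintro rfl
        exact hrP hj

theorem REA_neg {K : Type u} {U : Type v} [Field K] [Ring U] [Algebra K U] {A : Submodule K U}
    {𝒜 : ℝ → Submodule K U} (hG : Gr K U A ℝ (fun r s => r + s) 𝒜) :
    Gr K U A ℝ (fun r s => r + s) (fun r => 𝒜 (-r)) where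
  ind := hG.ind.comp neg_injective
  sup := by
    rw [← hG.sup]
    exact (Equiv.neg ℝ).iSup_comp (g := 𝒜)
  mul := by
    intro g h
    have := hG.mul (-g) (-h)
    rw [neg_add]
    exact this

theorem REA (hPOS : POS_stmt.{u, v}) (hTWO : TWO_stmt.{u, v}) : REA_stmt.{u, v} := by
  intro K U _ _ _ A hC 𝒜 hG
  have hge : ∀ r ∈ {r : ℝ | 0 ≤ r}, ∀ s ∈ {r : ℝ | 0 ≤ r}, r + s ∈ {r : ℝ | 0 ≤ r} := by
    intro r hr s hs
    rw [Set.mem_setOf_eq] at hr hs ⊢
    exact add_nonneg hr hs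
  have hlt : ∀ r ∈ {r : ℝ | r < 0}, ∀ s ∈ {r : ℝ | r < 0}, r + s ∈ {r : ℝ | r < 0} := by
    intro r hr s hs
    rw [Set.mem_setOf_eq] at hr hs ⊢
    exact add_neg hr hs
  have hgt : ∀ r ∈ {r : ℝ | 0 < r}, ∀ s ∈ {r : ℝ | 0 < r}, r + s ∈ {r : ℝ | 0 < r} := by
    intro r hr s hs
    rw [Set.mem_setOf_eq] at hr hs ⊢
    exact add_pos hr hs
  have hze : ∀ r ∈ ({0} : Set ℝ), ∀ s ∈ ({0} : Set ℝ), r + s ∈ ({0} : Set ℝ) := by
    intro r hr s hs
    rw [Set.mem_singleton_iff] at hr hs ⊢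
    rw [hr, hs, add_zero]
  have h1 : REA_part 𝒜 {r : ℝ | 0 ≤ r} ⊔ REA_part 𝒜 {r : ℝ | r < 0} = A := by
    apply le_antisymm
    · exact sup_le (REA_le hG _) (REA_le hG _)
    · rw [← hG.sup]
      refine iSup_le fun r => ?_
      rcases le_or_gt 0 r with hr | hr
      · exact le_sup_of_le_left (le_iSup₂_of_le (f := fun r (_ : r ∈ {r : ℝ | 0 ≤ r}) => 𝒜 r)
          r hr le_rfl)
      · exact le_sup_of_le_right (le_iSup₂_of_le (f := fun r (_ : r ∈ {r : ℝ | r < 0}) => 𝒜 r)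
          r hr le_rfl)
  by_cases hA1 : REA_part 𝒜 {r : ℝ | r < 0} = A
  · exfalso
    refine hPOS K U A hC (fun r => 𝒜 (-r)) (REA_neg hG) ?_
    intro r hr
    have := REA_bot hG _ hA1 (-r) hr
    rw [Set.mem_setOf_eq] at this
    linarith
  by_cases hA2 : REA_part 𝒜 {r : ℝ | 0 ≤ r} = A
  · have h2 : REA_part 𝒜 ({0} : Set ℝ) ⊔ REA_part 𝒜 {r : ℝ | 0 < r} = A := by
      apply le_antisymm
      · exact sup_le (REA_le hG _) (REA_le hG _)
      · rw [← hA2]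
        refine iSup₂_le fun r hr => ?_
        rcases eq_or_lt_of_le (show (0 : ℝ) ≤ r from hr) with h | h
        · exact le_sup_of_le_left (le_iSup₂_of_le (f := fun r (_ : r ∈ ({0} : Set ℝ)) => 𝒜 r)
            r (Set.mem_singleton_iff.2 h.symm) le_rfl)
        · exact le_sup_of_le_right (le_iSup₂_of_le (f := fun r (_ : r ∈ {r : ℝ | 0 < r}) => 𝒜 r)
            r h le_rfl)
    by_cases hA3 : REA_part 𝒜 {r : ℝ | 0 < r} = A
    · exfalso
      exact hPOS K U A hC 𝒜 hG (fun r hr => REA_bot hG _ hA3 r hr)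
    by_cases hA4 : REA_part 𝒜 ({0} : Set ℝ) = A
    · intro r hr
      exact Set.mem_singleton_iff.1 (REA_bot hG _ hA4 r hr)
    · exact absurd h2 (hTWO K U A hC _ _ (REA_le hG _) (REA_le hG _) (REA_mul hG _ hze)
        (REA_mul hG _ hgt) hA4 hA3)
  · exact absurd h1 (hTWO K U A hC _ _ (REA_le hG _) (REA_le hG _) (REA_mul hG _ hge)
      (REA_mul hG _ hlt) hA2 hA1)

end Pool.Agent.NN
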